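import Mathlib

set_option autoImplicit false

namespace Pool.Agent.Results.MP_6850eb_nt.Collision

def s (a : ℤ) : ℕ → ℤ
  | 0 => 0
  | 1 => a
  | (n + 2) => if n % 2 = 0 then 2 * s a (n / 2 + 1) + 2 else 3 * s a (n / 2 + 1) + 3

theorem result :
    (∀ a : ℤ, s a 1 = a ∧
      ∀ k : ℕ, 1 ≤ k → s a (2 * k) = 2 * s a k + 2 ∧ s a (2 * k + 1) = 3 * s a k + 3) ∧
    (∃ a : ℤ, 2 < a ∧ ∃ m n : ℕ, 1 ≤ m ∧ 1 ≤ n ∧ m ≠ n ∧ s a m = s a n) ∧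
    (∃ a : ℤ, a < -3 ∧ ∃ m n : ℕ, 1 ≤ m ∧ 1 ≤ n ∧ m ≠ n ∧ s a m = s a n) := by
  refine ⟨fun a => ⟨by simp [s], fun k hk => ?_⟩, ⟨3, by norm_num, 2043, 21504, by norm_num,
    by norm_num, by norm_num, by simp [s]⟩, ⟨-4, by norm_num, 51, 128, by norm_num,
    by norm_num, by norm_num, by simp [s]⟩⟩
  obtain ⟨j, rfl⟩ : ∃ j, k = j + 1 := ⟨k - 1, by omega⟩
  constructor
  · have h : 2 * (j + 1) = 2 * j + 2 := by ring
    rw [h, s, if_pos (by omega), show 2 * j / 2 = j by omega]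
  · have h : 2 * (j + 1) + 1 = (2 * j + 1) + 2 := by ring
    rw [h, s, if_neg (by omega), show (2 * j + 1) / 2 = j by omega]

end Pool.Agent.Results.MP_6850eb_nt.Collision
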